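import Pool.Agent.Q17.ML2.Stm2

/-! Project CA (helper17), job RG. -/

set_option autoImplicit false

open IntermediateField

namespace Pool.Agent.Q190.CA

section act

variable {K Ω : Type} [Field K] [Field Ω] [Algebra K Ω]

/-- action on the embeddings -/
def act (L : IntermediateField K Ω) : (Ω ≃ₐ[K] Ω) →* Equiv.Perm (L →ₐ[K] Ω) where
  toFun σ :=
    { toFun := fun φ => σ.toAlgHom.comp φ
      invFun := fun φ => σ.symm.toAlgHom.comp φ
      left_inv := fun φ => by ext x; simp
      right_inv := fun φ => by ext x; simp }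
  map_one' := by ext φ x; simp
  map_mul' σ τ := by ext φ x; simp

theorem act_apply (L : IntermediateField K Ω) (σ : Ω ≃ₐ[K] Ω) (φ : L →ₐ[K] Ω) :
    act L σ φ = σ.toAlgHom.comp φ := rfl

theorem act_apply_apply (L : IntermediateField K Ω) (σ : Ω ≃ₐ[K] Ω) (φ : L →ₐ[K] Ω) (x : L) :
    act L σ φ x = σ (φ x) := rfl

theorem ker_act (L : IntermediateField K Ω) :
    (act L).ker = (normalClosure K L Ω).fixingSubgroup := by
  ext σ
  rw [MonoidHom.mem_ker]
  constructor
  · intro h
    have h1 : normalClosure K L Ω ≤ fixedField (Subgroup.zpowers σ) := by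
      rw [normalClosure_le_iff]
      intro φ
      rintro _ ⟨x, rfl⟩
      rw [mem_fixedField_iff]
      intro τ hτ
      have h2 : Subgroup.zpowers σ ≤ (act L).ker := by
        rw [Subgroup.zpowers_le]
        exact h
      have h3 := h2 hτ
      rw [MonoidHom.mem_ker] at h3
      have := congrArg (fun π => π φ x) h3
      simpa [act_apply_apply] using this
    have h2 := (le_iff_le _ _).1 h1
    exact h2 (Subgroup.mem_zpowers σ)
  · intro h
    ext φ x
    rw [act_apply_apply]
    rw [IntermediateField.mem_fixingSubgroup_iff] at h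
    exact h _ (AlgHom.fieldRange_le_normalClosure φ ⟨x, rfl⟩)

end act

theorem main (K : Type) [Field K] [CharZero K] (n : ℕ) (G : Subgroup (Equiv.Perm (Fin n)))
    (L : IntermediateField K (AlgebraicClosure K)) (hL : FiniteDimensional K L)
    (hG : ∃ e : (L →ₐ[K] AlgebraicClosure K) ≃ Fin n, ∀ π : Equiv.Perm (Fin n),
    π ∈ G ↔ ∃ σ : AlgebraicClosure K ≃ₐ[K] AlgebraicClosure K,
      ∀ φ : L →ₐ[K] AlgebraicClosure K, e (σ.toAlgHom.comp φ) = π (e φ)) :
    ∃ (L : Type) (_ : Field L) (_ : Algebra K L) (_ : FiniteDimensional K L) (_ : IsGalois K L),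
    Nonempty (G ≃* (L ≃ₐ[K] L)) := by
  obtain ⟨e, he⟩ := hG
  let Ω := AlgebraicClosure K
  let N : IntermediateField K Ω := normalClosure K L Ω
  have hNf : FiniteDimensional K N := normalClosure.is_finiteDimensional K L Ω
  have hNn : Normal K N := normalClosure.normal K L Ω
  have hNg : IsGalois K N := ⟨⟩
  let ρ : (Ω ≃ₐ[K] Ω) →* Equiv.Perm (Fin n) := (e.permCongrHom.toMonoidHom).comp (act L)
  have hρ : ∀ (σ : Ω ≃ₐ[K] Ω) (i : Fin n), ρ σ i = e (σ.toAlgHom.comp (e.symm i)) := fun _ _ => rfl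
  have hrange : ρ.range = G := by
    ext π
    rw [MonoidHom.mem_range, he]
    constructor
    · rintro ⟨σ, rfl⟩
      refine ⟨σ, fun φ => ?_⟩
      rw [hρ, e.symm_apply_apply]
    · rintro ⟨σ, hσ⟩
      refine ⟨σ, ?_⟩
      ext1 i
      rw [hρ, hσ, e.apply_symm_apply]
  have hker : ρ.ker = N.fixingSubgroup := by
    rw [← ker_act]
    ext σ
    rw [MonoidHom.mem_ker, MonoidHom.mem_ker]
    exact e.permCongrHom.map_eq_one_iff
  have hker2 : (AlgEquiv.restrictNormalHom N : (Ω ≃ₐ[K] Ω) →* (N ≃ₐ[K] N)).ker =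
      N.fixingSubgroup := IntermediateField.restrictNormalHom_ker N
  have hsur : Function.Surjective (AlgEquiv.restrictNormalHom N : (Ω ≃ₐ[K] Ω) →* (N ≃ₐ[K] N)) :=
    AlgEquiv.restrictNormalHom_surjective Ω
  refine ⟨N, inferInstance, inferInstance, hNf, hNg, ⟨?_⟩⟩
  exact (MulEquiv.subgroupCongr hrange.symm).trans
    ((QuotientGroup.quotientKerEquivRange ρ).symm.trans
    ((QuotientGroup.quotientMulEquivOfEq (hker.trans hker2.symm)).trans
    (QuotientGroup.quotientKerEquivOfSurjective _ hsur)))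

/-- JOB RG -/
theorem t_RG : Pool.Agent.Q17.ML2.S_RG := by
  intro K _ _ n G L hL hG
  exact main K n G L hL hG

end Pool.Agent.Q190.CA
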